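import Pool.Agent.Q297.KN.PF

/-!
# Job KN-B1 (helper297): the sum of the derivatives over the lattice points
-/

set_option autoImplicit false

namespace Pool.Agent.Q297.KN

open Matrix Finset
open Pool.Agent.Q99.KN
open Pool.Agent.W719.BS (D)

/-- `f` is a trigonometric polynomial of degree `d` (in halves of the basic frequency) -/
def TT (N d : ℕ) (f : ℂ → ℂ) (P : Polynomial ℂ) : Prop :=
  P.natDegree ≤ d ∧ ∀ z : ℂ, f z = Complex.exp (-(Complex.I * Real.pi * d * z / (2 * N))) *
    P.eval (Complex.exp (Complex.I * Real.pi * z / N))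

lemma TT.mul {N d e : ℕ} {f g : ℂ → ℂ} {P Q : Polynomial ℂ} (hf : TT N d f P) (hg : TT N e g Q) :
    TT N (d + e) (fun z => f z * g z) (P * Q) := by
  refine ⟨Polynomial.natDegree_mul_le_of_le hf.1 hg.1, fun z => ?_⟩
  show f z * g z = _
  rw [hf.2, hg.2, Polynomial.eval_mul]
  have : Complex.exp (-(Complex.I * Real.pi * ((d + e : ℕ) : ℂ) * z / (2 * N))) =
      Complex.exp (-(Complex.I * Real.pi * d * z / (2 * N))) *
      Complex.exp (-(Complex.I * Real.pi * e * z / (2 * N))) := by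
    rw [← Complex.exp_add]; push_cast; ring_nf
  rw [this]; ring

lemma TT.add {N d : ℕ} {f g : ℂ → ℂ} {P Q : Polynomial ℂ} (hf : TT N d f P) (hg : TT N d g Q) :
    TT N d (fun z => f z + g z) (P + Q) := by
  refine ⟨(Polynomial.natDegree_add_le_of_le hf.1 hg.1).trans (max_self d).le, fun z => ?_⟩
  show f z + g z = _
  rw [hf.2, hg.2, Polynomial.eval_add]; ring

lemma TT.smul {N d : ℕ} {f : ℂ → ℂ} {P : Polynomial ℂ} (hf : TT N d f P) (c : ℂ) :
    TT N d (fun z => c * f z) (Polynomial.C c * P) := by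
  refine ⟨(Polynomial.natDegree_C_mul_le c P).trans hf.1, fun z => ?_⟩
  show c * f z = _
  rw [hf.2, Polynomial.eval_mul, Polynomial.eval_C]; ring

lemma TT.one (N : ℕ) : TT N 0 (fun _ => 1) 1 := by
  refine ⟨by simp, fun z => ?_⟩
  simp

lemma TT.zero (N d : ℕ) : TT N d (fun _ => 0) 0 := ⟨by simp, fun z => by simp⟩

lemma TT.prod {N : ℕ} (F : ℕ → ℂ → ℂ) (P : ℕ → Polynomial ℂ) (h : ∀ j, TT N 1 (F j) (P j)) (k : ℕ) :
    TT N k (fun z => ∏ j ∈ range k, F j z) (∏ j ∈ range k, P j) := by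
  induction k with
  | zero => simpa using TT.one N
  | succ k ih =>
    simp only [Finset.prod_range_succ]
    exact ih.mul (h k)

lemma TT.cast {N d e : ℕ} {f : ℂ → ℂ} {P : Polynomial ℂ} (hf : TT N d f P) (h : d = e) : TT N e f P := h ▸ hf

lemma TT.congr {N d : ℕ} {f g : ℂ → ℂ} {P : Polynomial ℂ} (hf : TT N d f P) (h : ∀ z, g z = f z) :
    TT N d g P := ⟨hf.1, fun z => by rw [h, hf.2]⟩

lemma TT.raise {N d : ℕ} {f : ℂ → ℂ} {P : Polynomial ℂ} (hN : 0 < N) (hf : TT N d f P) :
    TT N (d + 2) f (Polynomial.X * P) := by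
  have hN' : (N : ℂ) ≠ 0 := by exact_mod_cast hN.ne'
  refine ⟨?_, fun z => ?_⟩
  · refine (Polynomial.natDegree_mul_le_of_le Polynomial.natDegree_X_le hf.1).trans (by omega)
  · rw [hf.2, Polynomial.eval_mul, Polynomial.eval_X, ← mul_assoc, ← Complex.exp_add]
    congr 2
    push_cast
    field_simp
    ring

lemma TT.sum {N d : ℕ} (s : Finset ℕ) (F : ℕ → ℂ → ℂ) (h : ∀ b ∈ s, ∃ P, TT N d (F b) P) :
    ∃ P, TT N d (fun z => ∑ b ∈ s, F b z) P := by
  classical
  induction s using Finset.induction_on with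
  | empty => exact ⟨0, by simpa using TT.zero N d⟩
  | insert b s hb ih =>
    obtain ⟨P, hP⟩ := h b (Finset.mem_insert_self b s)
    obtain ⟨Q, hQ⟩ := ih (fun c hc => h c (Finset.mem_insert_of_mem hc))
    refine ⟨P + Q, (hP.add hQ).congr fun z => ?_⟩
    rw [Finset.sum_insert hb]

lemma exp_surj {N : ℕ} (hN : 0 < N) {w : ℂ} (hw : w ≠ 0) : ∃ z : ℂ, Complex.exp (Complex.I * Real.pi * z / N) = w := by
  have hN' : (N : ℂ) ≠ 0 := by exact_mod_cast hN.ne'
  have hpi : (Real.pi : ℂ) ≠ 0 := by exact_mod_cast Real.pi_ne_zero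
  refine ⟨Complex.log w * N / (Complex.I * Real.pi), ?_⟩
  have : Complex.I * Real.pi * (Complex.log w * N / (Complex.I * Real.pi)) / N = Complex.log w := by
    field_simp [Complex.I_ne_zero]
  rw [this, Complex.exp_log hw]

lemma TT.unique {N d : ℕ} (hN : 0 < N) {f : ℂ → ℂ} {P Q : Polynomial ℂ} (hP : TT N d f P) (hQ : TT N d f Q) :
    P = Q := by
  apply Polynomial.eq_of_infinite_eval_eq
  have : {w : ℂ | w ≠ 0} ⊆ {x | Polynomial.eval x P = Polynomial.eval x Q} := by
    intro w hw
    obtain ⟨z, hz⟩ := exp_surj hN hw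
    have h1 := hP.2 z
    rw [hQ.2 z] at h1
    have h2 := mul_left_cancel₀ (Complex.exp_ne_zero _) h1
    rw [hz] at h2
    exact h2.symm
  refine Set.Infinite.mono this ?_
  have h2 : {w : ℂ | w ≠ 0} = ({0} : Set ℂ)ᶜ := by ext; simp
  rw [h2]
  exact (Set.finite_singleton 0).infinite_compl

/-- `2 sin (π (c + z/2) / N)` -/
lemma TT.snp (N : ℕ) (c : ℂ) : TT N 1 (fun z => sn N (c + z / 2))
    (Polynomial.C (-(Complex.I * Complex.exp (Complex.I * (Real.pi * c / N)))) * Polynomial.X +
      Polynomial.C (Complex.I * Complex.exp (-(Complex.I * (Real.pi * c / N))))) := by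
  refine ⟨Polynomial.natDegree_linear_le, fun z => ?_⟩
  simp only [Polynomial.eval_add, Polynomial.eval_mul, Polynomial.eval_C, Polynomial.eval_X]
  unfold sn
  have h2 : ∀ x : ℂ, 2 * Complex.sin x = -(Complex.I * Complex.exp (Complex.I * x)) +
      Complex.I * Complex.exp (-(Complex.I * x)) := by
    intro x
    rw [Complex.sin]
    rw [show -x * Complex.I = -(Complex.I * x) by ring, show x * Complex.I = Complex.I * x by ring]
    ring
  rw [h2]
  have e1 : Complex.exp (Complex.I * (Real.pi * (c + z / 2) / N)) =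
      Complex.exp (-(Complex.I * Real.pi * (1 : ℕ) * z / (2 * N))) *
      (Complex.exp (Complex.I * (Real.pi * c / N)) * Complex.exp (Complex.I * Real.pi * z / N)) := by
    rw [← Complex.exp_add, ← Complex.exp_add]; congr 1; push_cast; ring
  have e2 : Complex.exp (-(Complex.I * (Real.pi * (c + z / 2) / N))) =
      Complex.exp (-(Complex.I * Real.pi * (1 : ℕ) * z / (2 * N))) *
      Complex.exp (-(Complex.I * (Real.pi * c / N))) := by
    rw [← Complex.exp_add]; congr 1; push_cast; ring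
  rw [e1, e2]
  ring

/-- `2 sin (π (c - z/2) / N)` -/
lemma TT.snm (N : ℕ) (c : ℂ) : TT N 1 (fun z => sn N (c - z / 2))
    (Polynomial.C (Complex.I * Complex.exp (-(Complex.I * (Real.pi * c / N)))) * Polynomial.X +
      Polynomial.C (-(Complex.I * Complex.exp (Complex.I * (Real.pi * c / N))))) := by
  refine ⟨Polynomial.natDegree_linear_le, fun z => ?_⟩
  simp only [Polynomial.eval_add, Polynomial.eval_mul, Polynomial.eval_C, Polynomial.eval_X]
  unfold sn
  have h2 : ∀ x : ℂ, 2 * Complex.sin x = Complex.I * Complex.exp (-(Complex.I * x)) +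
      -(Complex.I * Complex.exp (Complex.I * x)) := by
    intro x
    rw [Complex.sin]
    rw [show -x * Complex.I = -(Complex.I * x) by ring, show x * Complex.I = Complex.I * x by ring]
    ring
  rw [h2]
  have e1 : Complex.exp (-(Complex.I * (Real.pi * (c - z / 2) / N))) =
      Complex.exp (-(Complex.I * Real.pi * (1 : ℕ) * z / (2 * N))) *
      (Complex.exp (-(Complex.I * (Real.pi * c / N))) * Complex.exp (Complex.I * Real.pi * z / N)) := by
    rw [← Complex.exp_add, ← Complex.exp_add]; congr 1; push_cast; ring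
  have e2 : Complex.exp (Complex.I * (Real.pi * (c - z / 2) / N)) =
      Complex.exp (-(Complex.I * Real.pi * (1 : ℕ) * z / (2 * N))) *
      Complex.exp (Complex.I * (Real.pi * c / N)) := by
    rw [← Complex.exp_add]; congr 1; push_cast; ring
  rw [e1, e2]
  ring

/-- `sin (π z / N)` -/
lemma TT.sin (N : ℕ) : TT N 2 (fun z => Complex.sin (Real.pi * z / N))
    (Polynomial.C (-(Complex.I / 2)) * Polynomial.X ^ 2 + Polynomial.C (Complex.I / 2)) := by
  refine ⟨?_, fun z => ?_⟩
  · refine (Polynomial.natDegree_add_le_of_le (m := 2) (n := 2) ?_ ?_).trans (max_self 2).le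
    · exact Polynomial.natDegree_C_mul_X_pow_le _ _
    · simp
  · simp only [Polynomial.eval_add, Polynomial.eval_mul, Polynomial.eval_C, Polynomial.eval_X, Polynomial.eval_pow]
    rw [Complex.sin, mul_add]
    rw [show -(Real.pi * z / N : ℂ) * Complex.I = -(Complex.I * Real.pi * (2 : ℕ) * z / (2 * N)) by push_cast; ring,
      show (Real.pi * z / N : ℂ) * Complex.I = -(Complex.I * Real.pi * (2 : ℕ) * z / (2 * N)) +
        (Complex.I * Real.pi * z / N + Complex.I * Real.pi * z / N) by push_cast; ring,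
      Complex.exp_add, Complex.exp_add]
    ring

lemma TT.bcp (N k : ℕ) : ∃ P, TT N k (fun z => bc N ((N - 1 + z) / 2) k) P := by
  refine ⟨_, ((TT.prod (fun j z => sn N (((N : ℂ) - 1) / 2 - j + z / 2)) _
    (fun j => TT.snp N (((N : ℂ) - 1) / 2 - j)) k).smul ((D N k : ℝ) : ℂ)⁻¹).congr fun z => ?_⟩
  unfold bc
  rw [div_eq_inv_mul]
  congr 1
  refine Finset.prod_congr rfl fun j _ => ?_
  congr 1; ring

lemma TT.bcm (N k : ℕ) : ∃ P, TT N k (fun z => bc N ((N - 1 - z) / 2) k) P := by
  refine ⟨_, ((TT.prod (fun j z => sn N (((N : ℂ) - 1) / 2 - j - z / 2)) _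
    (fun j => TT.snm N (((N : ℂ) - 1) / 2 - j)) k).smul ((D N k : ℝ) : ℂ)⁻¹).congr fun z => ?_⟩
  unfold bc
  rw [div_eq_inv_mul]
  congr 1
  refine Finset.prod_congr rfl fun j _ => ?_
  congr 1; ring

lemma TT.Wk (N A β C : ℕ) : ∃ P, TT N (2 * (A + β + C)) (fun z => Wk N z A β C) P := by
  unfold Pool.Agent.Q99.KN.Wk
  refine TT.sum _ _ fun b hb => ?_
  have hb' : b ≤ β := Nat.lt_succ_iff.1 (Finset.mem_range.1 hb)
  obtain ⟨P1, h1⟩ := TT.bcm N A
  obtain ⟨P2, h2⟩ := TT.bcp N C
  obtain ⟨P3, h3⟩ := TT.bcp N b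
  obtain ⟨P4, h4⟩ := TT.bcm N (β - b)
  obtain ⟨P5, h5⟩ := TT.bcp N (A + b)
  obtain ⟨P6, h6⟩ := TT.bcm N (C + (β - b))
  exact ⟨_, (((h1.mul h2).mul (h3.mul h4)).mul (h5.mul h6)).cast (by omega)⟩

/-! ### sums over the lattice points -/

lemma geo (N : ℕ) (hN : 0 < N) (n : ℤ) (hn : |n| ≤ N) :
    (n : ℂ) * ∑ k ∈ range N, Complex.exp (Complex.I * Real.pi * n * zl N k / N) =
      if |n| = N then (n : ℂ) * ((-1) ^ (N - 1) * N) else 0 := by
  have hN' : (N : ℂ) ≠ 0 := by exact_mod_cast hN.ne'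
  have hpi : (Real.pi : ℂ) ≠ 0 := by exact_mod_cast Real.pi_ne_zero
  have hterm : ∀ k, Complex.exp (Complex.I * Real.pi * n * zl N k / N) =
      Complex.exp (Complex.I * Real.pi * n * (1 - N) / N) *
        Complex.exp (2 * Real.pi * Complex.I * (n / N)) ^ k := by
    intro k
    rw [← Complex.exp_nat_mul, ← Complex.exp_add]
    congr 1
    unfold zl
    field_simp
    ring
  rcases eq_or_ne n 0 with h0 | h0
  · subst h0
    have : ¬ (|(0 : ℤ)| = N) := by simp; omega
    rw [if_neg this]; simp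
  by_cases hn1 : |n| = N
  · rw [if_pos hn1]
    congr 1
    have hval : ∀ k ∈ range N, Complex.exp (Complex.I * Real.pi * n * zl N k / N) = (-1) ^ (N - 1) := by
      intro k _
      obtain ⟨m, rfl⟩ : ∃ m, N = m + 1 := ⟨N - 1, by omega⟩
      rcases abs_eq (by positivity : (0 : ℤ) ≤ ((m + 1 : ℕ) : ℤ)) |>.1 hn1 with h | h
      · have e : Complex.I * Real.pi * n * zl (m + 1) k / ((m + 1 : ℕ) : ℂ) =
            (k : ℕ) * (2 * Real.pi * Complex.I) + (m : ℕ) * (-(Real.pi * Complex.I)) := by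
          rw [h]; unfold zl; push_cast at hN' ⊢; field_simp; ring
        rw [e, Complex.exp_add, Complex.exp_nat_mul, Complex.exp_nat_mul, Complex.exp_two_pi_mul_I,
          Complex.exp_neg, Complex.exp_pi_mul_I]
        simp
      · have e : Complex.I * Real.pi * n * zl (m + 1) k / ((m + 1 : ℕ) : ℂ) =
            (k : ℕ) * (-(2 * Real.pi * Complex.I)) + (m : ℕ) * (Real.pi * Complex.I) := by
          rw [h]; unfold zl; push_cast at hN' ⊢; field_simp; ring
        rw [e, Complex.exp_add, Complex.exp_nat_mul, Complex.exp_nat_mul, Complex.exp_neg,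
          Complex.exp_two_pi_mul_I, Complex.exp_pi_mul_I]
        simp
    rw [Finset.sum_congr rfl hval, Finset.sum_const, Finset.card_range, nsmul_eq_mul, mul_comm]
  · rw [if_neg hn1]
    have hlt : |n| < N := lt_of_le_of_ne hn hn1
    rw [Finset.sum_congr rfl fun k _ => hterm k, ← Finset.mul_sum]
    set ζ := Complex.exp (2 * Real.pi * Complex.I * (n / N)) with hζ
    have hζN : ζ ^ N = 1 := by
      rw [hζ, ← Complex.exp_nat_mul]
      have : (N : ℂ) * (2 * Real.pi * Complex.I * (n / N)) = n * (2 * Real.pi * Complex.I) := by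
        field_simp
      rw [this, Complex.exp_int_mul, Complex.exp_two_pi_mul_I, _root_.one_zpow]
    have hζ1 : ζ ≠ 1 := by
      rw [hζ, Ne, Complex.exp_eq_one_iff]
      rintro ⟨m, hm⟩
      have h3 : (n : ℂ) / N = m := by
        have h4 : (2 * Real.pi * Complex.I : ℂ) ≠ 0 := by
          simp [hpi, Complex.I_ne_zero]
        have : (2 * Real.pi * Complex.I : ℂ) * (n / N) = (2 * Real.pi * Complex.I) * m := by
          rw [hm]; ring
        exact mul_left_cancel₀ h4 this
      rw [div_eq_iff hN'] at h3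
      have h5 : n = m * N := by exact_mod_cast h3
      rcases eq_or_ne m 0 with hm0 | hm0
      · apply h0; rw [h5, hm0]; simp
      · have h6 : 1 ≤ |m| := Int.one_le_abs hm0
        rw [h5, abs_mul, Nat.abs_cast] at hlt
        nlinarith
    have hg : ∑ k ∈ range N, ζ ^ k = 0 := by
      have := mul_geom_sum ζ N
      rw [hζN, sub_self] at this
      exact (mul_eq_zero.1 this).resolve_left (sub_ne_zero.2 hζ1)
    rw [hg]; simp

lemma dsum (N : ℕ) (hN : 0 < N) (m : ℕ) (hm : m ≤ N) (f : ℂ → ℂ) (P : Polynomial ℂ) (hf : TT N (2 * m) f P) :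
    ∑ k ∈ range N, deriv f (zl N k) =
      if m = N then Complex.I * Real.pi * ((-1) ^ (N - 1) * N) * (P.coeff (2 * N) - P.coeff 0) else 0 := by
  have hN' : (N : ℂ) ≠ 0 := by exact_mod_cast hN.ne'
  -- explicit form
  have hfe : f = fun z => ∑ j ∈ range (2 * m + 1), P.coeff j *
      Complex.exp (Complex.I * Real.pi * (((j : ℤ) - m : ℤ) : ℂ) * z / N) := by
    funext z
    rw [hf.2, Polynomial.eval_eq_sum_range' (lt_of_le_of_lt hf.1 (Nat.lt_succ_self _)), Finset.mul_sum]
    refine Finset.sum_congr rfl fun j _ => ?_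
    rw [← Complex.exp_nat_mul, mul_left_comm, ← Complex.exp_add]
    congr 2
    push_cast
    field_simp
    ring
  have hd : ∀ z, deriv f z = ∑ j ∈ range (2 * m + 1), P.coeff j *
      ((Complex.I * Real.pi / N) * ((((j : ℤ) - m : ℤ) : ℂ) *
        Complex.exp (Complex.I * Real.pi * (((j : ℤ) - m : ℤ) : ℂ) * z / N))) := by
    intro z
    rw [hfe]
    have h1 : HasDerivAt (fun z : ℂ => ∑ j ∈ range (2 * m + 1), P.coeff j *
      Complex.exp (Complex.I * Real.pi * (((j : ℤ) - m : ℤ) : ℂ) * z / N))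
      (∑ j ∈ range (2 * m + 1), P.coeff j *
      (Complex.exp (Complex.I * Real.pi * (((j : ℤ) - m : ℤ) : ℂ) * z / N) *
        (Complex.I * Real.pi * (((j : ℤ) - m : ℤ) : ℂ) / N))) z := by
      refine HasDerivAt.fun_sum fun j _ => ?_
      refine HasDerivAt.const_mul _ ?_
      refine HasDerivAt.cexp ?_
      have := (hasDerivAt_id z).const_mul (Complex.I * Real.pi * (((j : ℤ) - m : ℤ) : ℂ) / N)
      simp only [mul_one] at this
      refine this.congr_of_eventuallyEq (Filter.Eventually.of_forall fun w => ?_)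
      simp only [id]
      ring
    rw [h1.deriv]
    refine Finset.sum_congr rfl fun j _ => ?_
    ring
  simp only [hd]
  rw [Finset.sum_comm]
  have hj : ∀ j ∈ range (2 * m + 1), ∑ k ∈ range N, P.coeff j *
      ((Complex.I * Real.pi / N) * ((((j : ℤ) - m : ℤ) : ℂ) *
        Complex.exp (Complex.I * Real.pi * (((j : ℤ) - m : ℤ) : ℂ) * zl N k / N))) =
      P.coeff j * ((Complex.I * Real.pi / N) *
        (if |(j : ℤ) - m| = N then (((j : ℤ) - m : ℤ) : ℂ) * ((-1) ^ (N - 1) * N) else 0)) := by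
    intro j hj
    rw [Finset.mem_range] at hj
    rw [← geo N hN ((j : ℤ) - m) (by rw [abs_le]; omega), ← Finset.mul_sum, ← Finset.mul_sum, ← Finset.mul_sum]
  rw [Finset.sum_congr rfl hj]
  by_cases hmN : m = N
  · subst hmN
    rw [if_pos rfl]
    rw [Finset.sum_range_succ]
    have h0 : ∑ j ∈ range (2 * m), P.coeff j * ((Complex.I * Real.pi / m) *
        (if |(j : ℤ) - m| = m then (((j : ℤ) - m : ℤ) : ℂ) * ((-1) ^ (m - 1) * m) else 0)) =
        P.coeff 0 * ((Complex.I * Real.pi / m) * ((-(m : ℂ)) * ((-1) ^ (m - 1) * m))) := by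
      rw [Finset.sum_eq_single 0]
      · simp
      · intro j hj hj0
        rw [Finset.mem_range] at hj
        rw [if_neg]
        · simp
        · intro h
          rcases abs_eq (by positivity : (0 : ℤ) ≤ (m : ℤ)) |>.1 h with h | h <;> omega
      · intro h
        exact absurd (Finset.mem_range.2 (by omega)) h
    rw [h0, if_pos]
    · push_cast
      field_simp
      ring
    · rw [abs_eq (by positivity)]; left; omega
  · rw [if_neg hmN]
    apply Finset.sum_eq_zero
    intro j hj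
    rw [Finset.mem_range] at hj
    rw [if_neg]
    · simp
    · intro h
      rcases abs_eq (by positivity : (0 : ℤ) ≤ (N : ℤ)) |>.1 h with h | h <;> omega

end Pool.Agent.Q297.KN
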