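import Pool.Agent.Q297.KN.B1

/-!
# Job KN-B1 (helper297), end
-/

set_option autoImplicit false

namespace Pool.Agent.Q297.KN

open Matrix Finset
open Pool.Agent.Q99.KN
open Pool.Agent.W719.BS (D)

lemma TT.cz (N : ℕ) (hN : 0 < N) : TT N (2 * N) (fun z => cz N z)
    (Polynomial.C (1 / (N : ℂ) ^ 2) * Polynomial.X ^ (2 * N) +
      (Polynomial.C (2 * (-1) ^ N / (N : ℂ) ^ 2) * Polynomial.X ^ N + Polynomial.C (1 / (N : ℂ) ^ 2))) := by
  have hN' : (N : ℂ) ≠ 0 := by exact_mod_cast hN.ne'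
  refine ⟨?_, fun z => ?_⟩
  · refine (Polynomial.natDegree_add_le_of_le (m := 2 * N) (n := 2 * N)
      (Polynomial.natDegree_C_mul_X_pow_le _ _) ?_).trans (max_self _).le
    refine (Polynomial.natDegree_add_le_of_le (m := 2 * N) (n := 2 * N)
      ((Polynomial.natDegree_C_mul_X_pow_le _ _).trans (by omega)) (by simp)).trans (max_self _).le
  · simp only [Polynomial.eval_add, Polynomial.eval_mul, Polynomial.eval_C, Polynomial.eval_X, Polynomial.eval_pow]
    unfold Pool.Agent.Q99.KN.cz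
    rw [Complex.sin]
    obtain ⟨n, rfl⟩ : ∃ n, N = n + 1 := ⟨N - 1, by omega⟩
    set E := Complex.exp (Complex.I * Real.pi * z) with hE
    have hE0 : E ≠ 0 := Complex.exp_ne_zero _
    have h1 : Complex.exp (Complex.I * Real.pi * z / ((n + 1 : ℕ) : ℂ)) ^ (n + 1) = E := by
      rw [← Complex.exp_nat_mul, hE]; congr 1; field_simp
    have h2 : Complex.exp (Complex.I * Real.pi * z / ((n + 1 : ℕ) : ℂ)) ^ (2 * (n + 1)) = E ^ 2 := by
      rw [mul_comm 2 (n + 1), pow_mul, h1]
    have h3 : Complex.exp (-(Complex.I * Real.pi * ((2 * (n + 1) : ℕ) : ℂ) * z / (2 * ((n + 1 : ℕ) : ℂ)))) = E⁻¹ := by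
      rw [hE, ← Complex.exp_neg]; congr 1; push_cast at hN' ⊢; field_simp
    rw [h1, h2, h3]
    set u := Complex.exp (Real.pi * (z - ((n + 1 : ℕ) : ℂ) + 1) / 2 * Complex.I) with hu
    have hu0 : u ≠ 0 := Complex.exp_ne_zero _
    have h4 : Complex.exp (-(Real.pi * (z - ((n + 1 : ℕ) : ℂ) + 1) / 2) * Complex.I) = u⁻¹ := by
      rw [hu, ← Complex.exp_neg]; congr 1; ring
    have h5 : u ^ 2 = E * (-1) ^ n := by
      rw [hu, ← Complex.exp_nat_mul, hE]
      have : ((2 : ℕ) : ℂ) * (Real.pi * (z - ((n + 1 : ℕ) : ℂ) + 1) / 2 * Complex.I) =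
          Complex.I * Real.pi * z + (n : ℕ) * (-(Real.pi * Complex.I)) := by push_cast; ring
      rw [this, Complex.exp_add, Complex.exp_nat_mul, Complex.exp_neg, Complex.exp_pi_mul_I]
      norm_num
    rw [h4]
    have h6 : ((u⁻¹ - u) * Complex.I / 2) ^ 2 = (2 - u ^ 2 - (u ^ 2)⁻¹) / 4 := by
      have : ((u⁻¹ - u) * Complex.I / 2) ^ 2 = (u⁻¹ - u) ^ 2 * Complex.I ^ 2 / 4 := by ring
      rw [this, Complex.I_sq]
      field_simp
      ring
    rw [h6, h5]
    have h7 : ((-1 : ℂ) ^ n) * (-1) ^ n = 1 := by rw [← mul_pow]; simp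
    have h8 : ((-1 : ℂ) ^ n)⁻¹ = (-1) ^ n := by
      exact inv_eq_of_mul_eq_one_left h7
    rw [mul_inv, h8, pow_succ]
    field_simp
    linear_combination ((1 : ℂ) + E ^ 2) * h7

theorem b1 : S_B1 := by
  intro hPF hWR N hN A β C h
  have hN' : (N : ℂ) ≠ 0 := by exact_mod_cast hN.ne'
  obtain ⟨PW, hW⟩ := TT.Wk N A β C
  have hh := ((TT.sin N).mul hW).cast (show 2 + 2 * (A + β + C) = 2 * (A + β + C + 1) by ring)
  rw [dsum N hN (A + β + C + 1) (by omega) _ _ hh]
  by_cases hm : A + β + C + 1 = N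
  swap
  · rw [if_neg hm, if_neg]
    · simp
    rintro ⟨h1, h2⟩
    apply hm; omega
  rw [if_pos hm]
  -- the coefficients of the sine
  have hs2 : (Polynomial.C (-(Complex.I / 2)) * Polynomial.X ^ 2 + Polynomial.C (Complex.I / 2)).coeff 2 =
      -(Complex.I / 2) := by
    rw [Polynomial.coeff_add, Polynomial.coeff_C_mul_X_pow, Polynomial.coeff_C]; simp
  have hs0 : (Polynomial.C (-(Complex.I / 2)) * Polynomial.X ^ 2 + Polynomial.C (Complex.I / 2)).coeff 0 =
      Complex.I / 2 := by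
    rw [Polynomial.coeff_add, Polynomial.coeff_C_mul_X_pow, Polynomial.coeff_C]; simp
  have hc1 : ((Polynomial.C (-(Complex.I / 2)) * Polynomial.X ^ 2 + Polynomial.C (Complex.I / 2)) * PW).coeff
      (2 * N) = -(Complex.I / 2) * PW.coeff (2 * (A + β + C)) := by
    have h2N : 2 * N = 2 + 2 * (A + β + C) := by omega
    rw [h2N, Polynomial.coeff_mul_add_eq_of_natDegree_le (TT.sin N).1 hW.1, hs2]
  rw [hc1, Polynomial.mul_coeff_zero, hs0]
  -- the product of the two sines
  set c : ℂ := ((N : ℂ) - 1) / 2 - C with hc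
  have hS := (TT.snp N c).mul (TT.snm N c)
  set Pa := Polynomial.C (-(Complex.I * Complex.exp (Complex.I * (Real.pi * c / N)))) * Polynomial.X +
      Polynomial.C (Complex.I * Complex.exp (-(Complex.I * (Real.pi * c / N)))) with hPa
  set Pb := Polynomial.C (Complex.I * Complex.exp (-(Complex.I * (Real.pi * c / N)))) * Polynomial.X +
      Polynomial.C (-(Complex.I * Complex.exp (Complex.I * (Real.pi * c / N)))) with hPb
  have hee : Complex.exp (Complex.I * (Real.pi * c / N)) * Complex.exp (-(Complex.I * (Real.pi * c / N))) = 1 := by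
    rw [← Complex.exp_add, add_neg_cancel, Complex.exp_zero]
  have hS2 : (Pa * Pb).coeff 2 = 1 := by
    rw [show (2 : ℕ) = 1 + 1 from rfl, Polynomial.coeff_mul_add_eq_of_natDegree_le (TT.snp N c).1 (TT.snm N c).1]
    simp only [Polynomial.coeff_add, Polynomial.coeff_C_mul, Polynomial.coeff_X_one, Polynomial.coeff_C_succ,
      mul_one, add_zero]
    linear_combination (-(Complex.I ^ 2)) * hee - Complex.I_sq
  have hS0 : (Pa * Pb).coeff 0 = 1 := by
    rw [Polynomial.mul_coeff_zero]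
    simp only [hPa, hPb, Polynomial.coeff_add, Polynomial.coeff_C_mul, Polynomial.coeff_X_zero,
      Polynomial.coeff_C_zero, mul_zero, zero_add]
    linear_combination (-(Complex.I ^ 2)) * hee - Complex.I_sq
  have hSW := (hS.mul hW).cast (show 1 + 1 + 2 * (A + β + C) = 2 * N by omega)
  have hSWt : (Pa * Pb * PW).coeff (2 * N) = PW.coeff (2 * (A + β + C)) := by
    have h2N : 2 * N = 2 + 2 * (A + β + C) := by omega
    rw [h2N, Polynomial.coeff_mul_add_eq_of_natDegree_le hS.1 hW.1, hS2, one_mul]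
  have hSW0 : (Pa * Pb * PW).coeff 0 = PW.coeff 0 := by
    rw [Polynomial.mul_coeff_zero, hS0, one_mul]
  have hWR' := hWR hPF N hN
  have hfun : ∀ z : ℂ, sn N (c + z / 2) * sn N (c - z / 2) * Wk N z A β C =
      sn N ((N - 1 + z) / 2 - C) * sn N ((N - 1 - z) / 2 - C) * Wk N z A β C := by
    intro z
    have e1 : c + z / 2 = (N - 1 + z) / 2 - C := by rw [hc]; ring
    have e2 : c - z / 2 = (N - 1 - z) / 2 - C := by rw [hc]; ring
    rw [e1, e2]
  rcases Nat.eq_zero_or_pos β with hβ | hβ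
  · subst hβ
    rw [if_pos ⟨rfl, by omega⟩]
    have hcz := TT.cz N hN
    have hSW' : TT N (2 * N) (fun z => cz N z) (Pa * Pb * PW) := by
      refine hSW.congr fun z => ?_
      rw [hfun z, ((hWR' z A 0 C).2.2.2 (by omega))]
    have heq := TT.unique hN hSW' hcz
    have ht : (Pa * Pb * PW).coeff (2 * N) = 1 / (N : ℂ) ^ 2 := by
      rw [heq]
      simp only [Polynomial.coeff_add, Polynomial.coeff_C_mul_X_pow, Polynomial.coeff_C, if_true]
      rw [if_neg (by omega), if_neg (by omega)]; ring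
    have h0 : (Pa * Pb * PW).coeff 0 = 1 / (N : ℂ) ^ 2 := by
      rw [heq]
      simp only [Polynomial.coeff_add, Polynomial.coeff_C_mul_X_pow, Polynomial.coeff_C, if_true]
      rw [if_neg (by omega), if_neg (by omega)]; ring
    rw [hSWt] at ht
    rw [hSW0] at h0
    rw [ht, h0]
    push_cast
    field_simp
    linear_combination (-(2 : ℂ)) * Complex.I_sq
  · rw [if_neg (by omega)]
    obtain ⟨β', rfl⟩ : ∃ β', β = β' + 1 := ⟨β - 1, by omega⟩
    obtain ⟨PV, hV⟩ := TT.Wk N A β' (C + 1)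
    have hR := ((hV.smul (sn N (C + 1) ^ 2)).raise hN).cast (show 2 * (A + β' + (C + 1)) + 2 = 2 * N by omega)
    have hSW' : TT N (2 * N) (fun z => sn N (C + 1) ^ 2 * Wk N z A β' (C + 1)) (Pa * Pb * PW) := by
      refine hSW.congr fun z => ?_
      rw [hfun z, ((hWR' z A β' C).2.2.1 (by omega))]
    have heq := TT.unique hN hSW' hR
    have hV1 : (Polynomial.C (sn N (C + 1) ^ 2) * PV).natDegree ≤ 2 * (A + β' + (C + 1)) := (hV.smul _).1
    have ht : (Pa * Pb * PW).coeff (2 * N) = 0 := by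
      rw [heq, show 2 * N = (2 * (A + β' + (C + 1)) + 1) + 1 by omega, Polynomial.coeff_X_mul]
      exact Polynomial.coeff_eq_zero_of_natDegree_lt (by omega)
    have h0 : (Pa * Pb * PW).coeff 0 = 0 := by
      rw [heq, Polynomial.mul_coeff_zero, Polynomial.coeff_X_zero, zero_mul]
    rw [hSWt] at ht
    rw [hSW0] at h0
    rw [ht, h0]
    simp

end Pool.Agent.Q297.KN
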