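import Pool.Agent.Q297.KN.B1F

/-!
# Job KN-F2 (helper297): crossings in the Fourier basis
-/

set_option autoImplicit false

namespace Pool.Agent.Q297.KN

open Matrix Finset
open Pool.Agent.H550R3.Jones (WM IsMod IsInt Gen br brf W irr)
open Pool.Agent.W715.VC (rt)
open Pool.Agent.Q191.TW (cs)
open Pool.Agent.Q191.LB (sg cx)
open Pool.Agent.Q191.FT (Cas lam Sc)
open Pool.Agent.W719.BS (D)
open Pool.Agent.Q99.FW (Kg)
open Pool.Agent.Q99.FAL
open Pool.Agent.Q99.KN

lemma diff_Wk (N A β C : ℕ) : Differentiable ℂ (fun z : ℂ => Wk N z A β C) := by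
  obtain ⟨P, hP⟩ := TT.Wk N A β C
  have : (fun z : ℂ => Wk N z A β C) = fun z : ℂ =>
      Complex.exp (-(Complex.I * Real.pi * ((2 * (A + β + C) : ℕ) : ℂ) * z / (2 * N))) *
      P.eval (Complex.exp (Complex.I * Real.pi * z / N)) := by
    funext z; exact hP.2 z
  rw [this]
  have h2 : Differentiable ℂ (fun z : ℂ => P.eval (Complex.exp (Complex.I * Real.pi * z / N))) := by
    exact (Polynomial.differentiable P).comp (by fun_prop)
  have h1 : Differentiable ℂ (fun z : ℂ =>
    Complex.exp (-(Complex.I * Real.pi * ((2 * (A + β + C) : ℕ) : ℂ) * z / (2 * N)))) := by fun_prop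
  exact h1.mul h2

lemma diff_sin (N : ℕ) : Differentiable ℂ (fun z : ℂ => Complex.sin (Real.pi * z / N)) := by fun_prop

lemma diff_ez (N : ℕ) (w : ℤ) : Differentiable ℂ (fun z : ℂ => ez N w z) := by
  unfold ez; fun_prop

lemma diff_zu (N : ℕ) (i j : ℤ) (q : Fin N × Fin N) : Differentiable ℂ (fun z : ℂ => zu N z i j q) := by
  have : (fun z : ℂ => zu N z i j q) = fun z : ℂ => ∑ β ∈ range N, ∑ C ∈ range N,
      if aA N i j + β + C < N then
        Wk N z (aA N i j) β C * Uv N (i - (N - 1 - aA N i j - β - C)) (j + β) q else 0 := by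
    funext z
    unfold zu
    rw [Finset.sum_apply]
    refine Finset.sum_congr rfl fun β _ => ?_
    rw [Finset.sum_apply]
    refine Finset.sum_congr rfl fun C _ => ?_
    split_ifs with h
    · simp [Pi.smul_apply, smul_eq_mul]
    · rfl
  rw [this]
  refine Differentiable.fun_sum fun β _ => Differentiable.fun_sum fun C _ => ?_
  split_ifs with h
  · exact (diff_Wk N _ _ _).mul_const _
  · exact differentiable_const _

lemma deriv_ez (N : ℕ) (w : ℤ) (z : ℂ) :
    deriv (fun z : ℂ => ez N w z) z = Complex.I * Real.pi * w * z / (2 * N) * ez N w z := by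
  have h1 : HasDerivAt (fun z : ℂ => Complex.I * Real.pi * w * z ^ 2 / (4 * N))
      (Complex.I * Real.pi * w * (2 * z) / (4 * N)) z := by
    have := ((hasDerivAt_id z).pow 2).const_mul (Complex.I * Real.pi * w) |>.div_const (4 * N)
    simpa using this
  have h2 := h1.cexp
  have h3 : (fun z : ℂ => ez N w z) = fun z : ℂ => Complex.exp (Complex.I * Real.pi * w * z ^ 2 / (4 * N)) := rfl
  rw [h3, h2.deriv]
  show _ = _ * Complex.exp (Complex.I * Real.pi * w * z ^ 2 / (4 * N))
  rw [mul_comm]
  congr 1
  by_cases hN : (N : ℂ) = 0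
  · simp [hN]
  · field_simp; ring

lemma hasDerivAt_tz (N : ℕ) (z : ℂ) :
    HasDerivAt (fun z : ℂ => tz N z) (2 * Real.pi / N * Complex.sin (Real.pi * z / N)) z := by
  have h1 : HasDerivAt (fun z : ℂ => Real.pi * z / N) ((Real.pi : ℂ) / N) z := by
    have := ((hasDerivAt_id z).const_mul (Real.pi : ℂ)).div_const (N : ℂ)
    simpa using this
  have h2 := (h1.ccos).const_mul (-2 : ℂ)
  have h3 : (fun z : ℂ => tz N z) = fun z : ℂ => -2 * Complex.cos (Real.pi * z / N) := rfl
  rw [h3]
  exact h2.congr_deriv (by ring)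

/-- the two lattice points with the same value of `tz` are opposite -/
lemma tz_inj {N : ℕ} {k k' : ℕ} (hk : k < N) (hk' : k' < N) (h : tz N (zl N k) = tz N (zl N k')) :
    zl N k' = zl N k ∨ zl N k' = -zl N k := by
  have hN : (N : ℂ) ≠ 0 := by
    have : N ≠ 0 := by omega
    exact_mod_cast this
  have hpi : (Real.pi : ℂ) ≠ 0 := by exact_mod_cast Real.pi_ne_zero
  unfold tz at h
  have h1 : Complex.cos (Real.pi * zl N k / N) = Complex.cos (Real.pi * zl N k' / N) := by
    have := h
    linear_combination (-(1 : ℂ) / 2) * h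
  rw [Complex.cos_eq_cos_iff] at h1
  obtain ⟨n, hn | hn⟩ := h1
  · left
    have h2 : zl N k' = 2 * n * N + zl N k := by
      field_simp at hn
      linear_combination hn
    unfold zl at h2 ⊢
    have h3 : (2 * (k' : ℤ) + 1 - N) = 2 * n * N + (2 * (k : ℤ) + 1 - N) := by exact_mod_cast h2
    have h4 : n = 0 := by
      by_contra hne
      have h5 : (1 : ℤ) ≤ |n| := Int.one_le_abs hne
      have h6 : (k' : ℤ) - k = n * N := by linarith
      have h7 : |(k' : ℤ) - k| < N := by rw [abs_lt]; constructor <;> omega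
      rw [h6, abs_mul] at h7
      have h8 : |(N : ℤ)| = N := abs_of_nonneg (by positivity)
      rw [h8] at h7
      nlinarith
    rw [h2, h4]; push_cast; ring
  · right
    have h2 : zl N k' = 2 * n * N - zl N k := by
      field_simp at hn
      linear_combination hn
    unfold zl at h2 ⊢
    have h3 : (2 * (k' : ℤ) + 1 - N) = 2 * n * N - (2 * (k : ℤ) + 1 - N) := by exact_mod_cast h2
    have h4 : n = 0 := by
      by_contra hne
      have h5 : (1 : ℤ) ≤ |n| := Int.one_le_abs hne
      have h6 : (k' : ℤ) + k + 1 - N = n * N := by linarith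
      have h7 : |(k' : ℤ) + k + 1 - N| < N := by rw [abs_lt]; constructor <;> omega
      rw [h6, abs_mul] at h7
      have h8 : |(N : ℤ)| = N := abs_of_nonneg (by positivity)
      rw [h8] at h7
      nlinarith
    rw [h2, h4]; push_cast; ring

theorem f2 : S_F2 := by
  classical
  intro hEU hPF hWR hCU hK1 hB1 hK2 hHI hMP hPJ hK3 N hN σ m i j
  have hN' : (N : ℂ) ≠ 0 := by exact_mod_cast hN.ne'
  have hpi : (Real.pi : ℂ) ≠ 0 := by exact_mod_cast Real.pi_ne_zero
  set w : ℤ := sg σ * m with hw
  -- choice of the nodes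
  set s : Finset ℂ := (range N).image (fun k => tz N (zl N k)) with hs
  have hch : ∀ x : ℂ, ∃ k : ℕ, x ∈ s → (k < N ∧ tz N (zl N k) = x) := by
    intro x
    by_cases hx : x ∈ s
    · rw [hs, Finset.mem_image] at hx
      obtain ⟨k, hk, hk'⟩ := hx
      exact ⟨k, fun _ => ⟨Finset.mem_range.mp hk, hk'⟩⟩
    · exact ⟨0, fun h => absurd h hx⟩
  choose kk hkk using hch
  obtain ⟨p, hp⟩ := hHI s (fun x => ez N w (zl N (kk x)))
    (fun x => Complex.I * Real.pi * w * zl N (kk x) / (2 * N) * ez N w (zl N (kk x)) /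
      (2 * Real.pi / N * Complex.sin (Real.pi * zl N (kk x) / N)))
  have hez : ∀ z : ℂ, ez N w (-z) = ez N w z := by intro z; unfold ez; congr 2; ring
  have hp1 : ∀ k < N, p.eval (tz N (zl N k)) = ez N w (zl N k) := by
    intro k hk
    have hx : tz N (zl N k) ∈ s := by rw [hs]; exact Finset.mem_image_of_mem _ (Finset.mem_range.mpr hk)
    obtain ⟨h1, h2⟩ := hkk _ hx
    rw [(hp _ hx).1]
    rcases tz_inj h1 hk h2 with h3 | h3
    · exact (congrArg (ez N w) h3).symm
    · exact (hez _).symm.trans (congrArg (ez N w) h3).symm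
  have hsin0 : ∀ k < N, Complex.sin (Real.pi * zl N k / N) = 0 → zl N k = 0 := by
    intro k hk h
    rw [Complex.sin_eq_zero_iff] at h
    obtain ⟨n, hn⟩ := h
    have h2 : zl N k = n * N := by
      field_simp at hn
      linear_combination hn
    unfold zl at h2 ⊢
    have h3 : (2 * (k : ℤ) + 1 - N) = n * N := by exact_mod_cast h2
    have h4 : n = 0 := by
      by_contra hne
      have h5 : (1 : ℤ) ≤ |n| := Int.one_le_abs hne
      have h7 : |2 * (k : ℤ) + 1 - N| < N := by rw [abs_lt]; constructor <;> omega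
      rw [h3, abs_mul] at h7
      have h8 : |(N : ℤ)| = N := abs_of_nonneg (by positivity)
      rw [h8] at h7
      nlinarith
    rw [h2, h4]; simp
  have hp2 : ∀ k < N, p.derivative.eval (tz N (zl N k)) * (2 * Real.pi / N *
      Complex.sin (Real.pi * zl N k / N)) =
        Complex.I * Real.pi * w * zl N k / (2 * N) * ez N w (zl N k) := by
    intro k hk
    have hx : tz N (zl N k) ∈ s := by rw [hs]; exact Finset.mem_image_of_mem _ (Finset.mem_range.mpr hk)
    by_cases h0 : Complex.sin (Real.pi * zl N k / N) = 0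
    · rw [h0, hsin0 k hk h0]; simp
    obtain ⟨h1, h2⟩ := hkk _ hx
    rw [(hp _ hx).2]
    have key : ∀ z z' : ℂ, Complex.sin (Real.pi * z / N) ≠ 0 → (z = z' ∨ z = -z') →
        Complex.I * Real.pi * w * z' / (2 * N) * ez N w z' / (2 * Real.pi / N * Complex.sin (Real.pi * z' / N)) *
          (2 * Real.pi / N * Complex.sin (Real.pi * z / N)) = Complex.I * Real.pi * w * z / (2 * N) * ez N w z := by
      intro z z' hz h
      rcases h with h | h
      · subst h
        rw [div_mul_cancel₀]
        exact mul_ne_zero (div_ne_zero (mul_ne_zero two_ne_zero hpi) hN') hz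
      · obtain rfl : z' = -z := by rw [h, neg_neg]
        rw [hez]
        have : Complex.sin (Real.pi * -z / N) = -Complex.sin (Real.pi * z / N) := by
          rw [← Complex.sin_neg]; congr 1; ring
        rw [this]
        field_simp
    exact key _ _ h0 (tz_inj h1 hk h2)
  -- the crossings
  have hcx := hK3 hMP hPJ N hN σ m p hp1 hp2
  rw [hcx, Matrix.smul_mulVec]
  funext q
  have hk2 := hK2 hEU hPF hWR hCU hK1 hB1 N hN p i j q
  -- derivatives agree
  have hder : ∀ k ∈ range N, deriv (fun z : ℂ => p.eval (tz N z) * Complex.sin (Real.pi * z / N) *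
      zu N z i j q) (zl N k) = deriv (fun z : ℂ => ez N w z * Complex.sin (Real.pi * z / N) *
      zu N z i j q) (zl N k) := by
    intro k hk
    have hk' := Finset.mem_range.mp hk
    have hG : Differentiable ℂ (fun z : ℂ => Complex.sin (Real.pi * z / N) * zu N z i j q) :=
      (diff_sin N).mul (diff_zu N i j q)
    have hP : HasDerivAt (fun z : ℂ => p.eval (tz N z))
        (p.derivative.eval (tz N (zl N k)) * (2 * Real.pi / N * Complex.sin (Real.pi * zl N k / N))) (zl N k) :=
      (p.hasDerivAt (tz N (zl N k))).comp (zl N k) (hasDerivAt_tz N (zl N k))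
    have hE : HasDerivAt (fun z : ℂ => ez N w z)
        (Complex.I * Real.pi * w * zl N k / (2 * N) * ez N w (zl N k)) (zl N k) := by
      have := ((diff_ez N w) (zl N k)).hasDerivAt
      rwa [deriv_ez] at this
    have hGd := (hG (zl N k)).hasDerivAt
    have e1 : (fun z : ℂ => p.eval (tz N z) * Complex.sin (Real.pi * z / N) * zu N z i j q) =
        fun z : ℂ => p.eval (tz N z) * (Complex.sin (Real.pi * z / N) * zu N z i j q) := by
      funext z; ring
    have e2 : (fun z : ℂ => ez N w z * Complex.sin (Real.pi * z / N) * zu N z i j q) =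
        fun z : ℂ => ez N w z * (Complex.sin (Real.pi * z / N) * zu N z i j q) := by
      funext z; ring
    rw [e1, e2, (hP.fun_mul hGd).deriv, (hE.fun_mul hGd).deriv, hp2 k hk', hp1 k hk']
  rw [Finset.sum_congr rfl hder] at hk2
  -- expansion of zu
  have hexp : ∀ k ∈ range N, deriv (fun z : ℂ => ez N w z * Complex.sin (Real.pi * z / N) *
      zu N z i j q) (zl N k) = ∑ β ∈ range N, ∑ C ∈ range N, if aA N i j + β + C < N then
        deriv (fun z : ℂ => ez N w z * Complex.sin (Real.pi * z / N) * Wk N z (aA N i j) β C) (zl N k) *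
          Uv N (i - (N - 1 - aA N i j - β - C)) (j + β) q else 0 := by
    intro k hk
    have e3 : (fun z : ℂ => ez N w z * Complex.sin (Real.pi * z / N) * zu N z i j q) =
        fun z : ℂ => ∑ β ∈ range N, ∑ C ∈ range N, if aA N i j + β + C < N then
          (ez N w z * Complex.sin (Real.pi * z / N) * Wk N z (aA N i j) β C) *
            Uv N (i - (N - 1 - aA N i j - β - C)) (j + β) q else 0 := by
      funext z
      unfold zu
      rw [Finset.sum_apply, Finset.mul_sum]
      refine Finset.sum_congr rfl fun β _ => ?_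
      rw [Finset.sum_apply, Finset.mul_sum]
      refine Finset.sum_congr rfl fun C _ => ?_
      split_ifs with h
      · simp only [Pi.smul_apply, smul_eq_mul]; ring
      · simp
    have hd : ∀ β C : ℕ, Differentiable ℂ (fun z : ℂ =>
        ez N w z * Complex.sin (Real.pi * z / N) * Wk N z (aA N i j) β C) := fun β C =>
      ((diff_ez N w).mul (diff_sin N)).mul (diff_Wk N _ β C)
    have hd2 : ∀ β C : ℕ, Differentiable ℂ (fun z : ℂ => if aA N i j + β + C < N then
          (ez N w z * Complex.sin (Real.pi * z / N) * Wk N z (aA N i j) β C) *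
            Uv N (i - (N - 1 - aA N i j - β - C)) (j + β) q else 0) := by
      intro β C
      split_ifs with h
      · exact (hd β C).mul_const _
      · exact differentiable_const _
    rw [e3, deriv_fun_sum (fun β _ => (Differentiable.fun_sum fun C _ => hd2 β C) _)]
    refine Finset.sum_congr rfl fun β _ => ?_
    rw [deriv_fun_sum (fun C _ => hd2 β C _)]
    refine Finset.sum_congr rfl fun C _ => ?_
    split_ifs with h
    · rw [deriv_mul_const (hd β C _)]
    · simp
  rw [Finset.sum_congr rfl hexp, Finset.sum_comm] at hk2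
  have hR : (∑ β ∈ range N, ∑ C ∈ range N, if aA N i j + β + C < N then
      Fk N w (aA N i j) β C • Uv N (i - (N - 1 - aA N i j - β - C)) (j + β) else 0) q =
      ∑ β ∈ range N, ∑ k ∈ range N, ∑ C ∈ range N, if aA N i j + β + C < N then
        deriv (fun z : ℂ => ez N w z * Complex.sin (Real.pi * z / N) * Wk N z (aA N i j) β C) (zl N k) *
          Uv N (i - (N - 1 - aA N i j - β - C)) (j + β) q else 0 := by
    rw [Finset.sum_apply]
    refine Finset.sum_congr rfl fun β _ => ?_
    rw [Finset.sum_comm, Finset.sum_apply]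
    refine Finset.sum_congr rfl fun C _ => ?_
    split_ifs with h
    · rw [← Finset.sum_mul]; rfl
    · simp
  rw [Pi.smul_apply, Pi.smul_apply, hR, hk2, smul_eq_mul, smul_eq_mul]
  have h1 : ((-1 : ℂ) ^ (N - 1)) * (-1) ^ (N - 1) = 1 := by rw [← mul_pow]; simp
  have h2 : (N : ℂ) / Real.pi * (Real.pi / N) = 1 := by field_simp
  linear_combination (-(Kg N (sg σ) ^ m * ((Polynomial.aeval (Cas (rt N) (W (rt N) N)) p) *ᵥ Uv N i j) q *
    ((N : ℂ) / Real.pi * (Real.pi / N)))) * h1 - (Kg N (sg σ) ^ m * ((Polynomial.aeval (Cas (rt N) (W (rt N) N)) p) *ᵥ Uv N i j) q) * h2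

end Pool.Agent.Q297.KN
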