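import Pool.Agent.Q99.KN.Stm1

/-!
# Jobs KN-PF and KN-B1 (helper297)
-/

set_option autoImplicit false

namespace Pool.Agent.Q297.KN

open Matrix Finset
open Pool.Agent.Q99.KN
open Pool.Agent.W719.BS (D)

lemma sn_neg (N : ℕ) (x : ℂ) : sn N (-x) = - sn N x := by
  unfold sn
  rw [mul_neg, neg_div, Complex.sin_neg]
  ring

lemma three (N : ℕ) (a y x b : ℂ) :
    sn N (a + y) * sn N (x - b) = sn N (y - b) * sn N (a + x) + sn N (x - y) * sn N (a + b) := by
  unfold sn
  have e : ∀ u v : ℂ, (Real.pi : ℂ) * (u + v) / N = Real.pi * u / N + Real.pi * v / N := fun u v => by ring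
  have e' : ∀ u v : ℂ, (Real.pi : ℂ) * (u - v) / N = Real.pi * u / N - Real.pi * v / N := fun u v => by ring
  rw [e, e', e', e, e', e]
  rw [Complex.sin_add, Complex.sin_sub, Complex.sin_sub, Complex.sin_add, Complex.sin_sub, Complex.sin_add]
  ring

theorem pf : S_PF := by
  intro N hN β
  induction β with
  | zero =>
    intro x y a h1 h2
    simp
  | succ β ih =>
    intro x y a h1 h2
    have hx : ∀ j ≤ β, sn N (x (β + 1) - x j) ≠ 0 := fun j hj => h2 j (by omega) (β + 1) le_rfl (by omega)
    have hx' : ∀ j ≤ β, sn N (x j - x (β + 1)) ≠ 0 := fun j hj => h2 (β + 1) le_rfl j (by omega) (by omega)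
    have ha : sn N (a + x (β + 1)) ≠ 0 := h1 _ le_rfl
    have IH := ih x y a (fun j hj => h1 j (by omega)) (fun i hi j hj => h2 i (by omega) j (by omega))
    have IH2 := ih x y (- x (β + 1))
      (fun j hj => by rw [neg_add_eq_sub]; exact hx' j hj)
      (fun i hi j hj => h2 i (by omega) j (by omega))
    simp only [neg_add_eq_sub] at IH2
    rw [Finset.prod_range_succ, Finset.prod_range_succ _ (β + 1), mul_div_mul_comm, IH, Finset.sum_mul]
    rw [Finset.sum_range_succ _ (β + 1)]
    have key : ∀ b ∈ Finset.range (β + 1),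
        (∏ j ∈ range β, sn N (y j - x b)) / (∏ j ∈ (range (β + 1)).erase b, sn N (x j - x b)) / sn N (a + x b) *
          (sn N (a + y β) / sn N (a + x (β + 1))) =
        (∏ j ∈ range (β + 1), sn N (y j - x b)) / (∏ j ∈ (range (β + 1 + 1)).erase b, sn N (x j - x b)) /
          sn N (a + x b) +
        (- (sn N (x (β + 1) - y β) / sn N (a + x (β + 1)))) *
          ((∏ j ∈ range β, sn N (y j - x b)) / (∏ j ∈ (range (β + 1)).erase b, sn N (x j - x b)) /
            sn N (x b - x (β + 1))) := by
      intro b hb
      have hb' : b ≤ β := Nat.lt_succ_iff.1 (Finset.mem_range.1 hb)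
      have hab : sn N (a + x b) ≠ 0 := h1 b (by omega)
      have hxb := hx b hb'
      have hxb' := hx' b hb'
      have hneg : sn N (x b - x (β + 1)) = - sn N (x (β + 1) - x b) := by
        rw [← sn_neg]; congr 1; ring
      have hers : (range (β + 1 + 1)).erase b = insert (β + 1) ((range (β + 1)).erase b) := by
        rw [Finset.range_add_one (n := β + 1), Finset.erase_insert_of_ne (by omega)]
      have hP : (∏ j ∈ (range (β + 1)).erase b, sn N (x j - x b)) ≠ 0 := by
        refine Finset.prod_ne_zero_iff.2 fun j hj => ?_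
        rw [Finset.mem_erase, Finset.mem_range] at hj
        exact h2 b (by omega) j (by omega) (Ne.symm hj.1)
      rw [hers, Finset.prod_insert (by simp), Finset.prod_range_succ, hneg]
      have h3 := three N a (y β) (x (β + 1)) (x b)
      field_simp
      linear_combination (∏ j ∈ range β, sn N (y j - x b)) * h3
    rw [Finset.sum_congr rfl key, Finset.sum_add_distrib, ← Finset.mul_sum, ← IH2]
    congr 1
    have hers : (range (β + 1 + 1)).erase (β + 1) = range (β + 1) := by
      rw [Finset.range_add_one (n := β + 1), Finset.erase_insert (by simp)]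
    have hneg : sn N (x (β + 1) - y β) = - sn N (y β - x (β + 1)) := by
      rw [← sn_neg]; congr 1; ring
    rw [hers, hneg, Finset.prod_range_succ (fun j => sn N (y j - x (β + 1))) β]
    ring

end Pool.Agent.Q297.KN
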